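import Mathlib
import Pool.Agent.H577R3.RM.Stmts

set_option autoImplicit false

namespace Pool.Agent.H577R3.RM

open Pool.Agent.Helper777.Prof Pool.Agent.H577R3 Filter Topology

/-- the event with a given column `k` -/
def BadK {n ℓ m : ℕ} (S0 : ℕ) (C : Finset (Fin n)) (j : Fin m) (i i' k : Fin n)
    (r : Fin m → Fin ℓ → Lt n) : Prop :=
  IsC (fun l => pos (r l) ℓ) C ∧
  LinearIndependent ℤ (Sum.elim (fun l => pos (r l) ℓ)
    (fun _ : Unit => (Pi.single i 1 : Fin n → ℤ))) ∧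
  (∀ k k' : Fin n, k ≠ k' → Spr S0 k k' (r j)) ∧ k ∈ (Finset.univ \ {i, i'} : Finset (Fin n)) ∧
  ∃ (K : Type) (_ : Field K) (θ : Fin n → Kˣ),
    (∀ l, mon θ (Multiplicative.ofAdd (pos (r l) ℓ)) = 1) ∧ Gen0 C θ ∧
    Ind r θ j.1 (Finset.univ \ {i, i'}) ∧
    (∃ z : Fin n → K, (∀ x, x ∉ (Finset.univ \ {i, i'} : Finset (Fin n)) → z x = 0) ∧
      (∀ l : Fin m, l.1 < j.1 → ∑ x, z x * evl θ (fox (r l) x) = 0) ∧ z k ≠ 0) ∧
    ¬ Ind r θ (j.1 + 1) (Finset.univ \ {i, i'})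

theorem card_I {n : ℕ} {i i' : Fin n} (h : i ≠ i') :
    (Finset.univ \ {i, i'} : Finset (Fin n)).card = n - 2 := by
  rw [Finset.card_sdiff_of_subset (Finset.subset_univ _), Finset.card_univ, Fintype.card_fin,
    Finset.card_pair h]

theorem badG_imp {n ℓ m S0 : ℕ} {C : Finset (Fin n)} {j : Fin m} {i i' : Fin n}
    (h8 : TaskPAIR) (hmn : m + 2 ≤ n) (hii : i ≠ i') (r : Fin m → Fin ℓ → Lt n)
    (h : BadG S0 C j i i' r) : ∃ k, BadK S0 C j i i' k r := by
  obtain ⟨a1, a2, a3, a4, a5⟩ := h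
  unfold GR at a5
  push Not at a5
  obtain ⟨K, _, θ, b1, b2, b3⟩ := a5
  have b4 := a4 K θ b1 b2
  have hj : j.1 < (Finset.univ \ {i, i'} : Finset (Fin n)).card := by
    rw [card_I hii]
    have := j.2
    omega
  obtain ⟨z, z1, z2, k, z3, z4⟩ := (h8 K n m j.1 (fun l x => evl θ (fox (r l) x))).2 _ hj
  exact ⟨k, a1, a2, a3, z3, K, _, θ, b1, b2, b4, ⟨z, z1, z2, z4⟩, b3⟩

theorem pos_update (h3 : TaskFX) {n ℓ m : ℕ} {k k' : Fin n} (hk : k ≠ k')
    (r : Fin m → Fin ℓ → Lt n) (j : Fin m) (hc : ∀ t, ¬ At (r j) (6 * t + 1) (c1 k k'))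
    {S : Finset ℕ} (hS : S ⊆ TW k k' (r j)) (l : Fin m) :
    pos (Function.update r j (put k k' S (r j)) l) ℓ = pos (r l) ℓ := by
  by_cases hl : l = j
  · subst hl
    rw [Function.update_self]
    exact (h3 n ℓ k k' (r l) S hk hc hS).2.2.2.1
  · rw [Function.update_of_ne hl]

theorem spr_put (h3 : TaskFX) {n ℓ S0 : ℕ} {k k' : Fin n} (hk : k ≠ k')
    (w : Fin ℓ → Lt n) (hc : ∀ t, ¬ At w (6 * t + 1) (c1 k k'))
    {S : Finset ℕ} (hS : S ⊆ TW k k' w) (h : Spr S0 k k' (put k k' S w)) : Spr S0 k k' w := by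
  obtain ⟨_, e2, e3, _, _, _⟩ := h3 n ℓ k k' w S hk hc hS
  intro Γ _ _ _ lam hlam
  obtain ⟨T, t1, t2, t3⟩ := h Γ lam hlam
  refine ⟨T, t1, fun t ht => (e2 t).1 (t2 t ht), ?_⟩
  intro x hx y hy hxy
  apply t3 hx hy
  change lam (Multiplicative.ofAdd (pos (put k k' S w) (6 * x + 1))) =
    lam (Multiplicative.ofAdd (pos (put k k' S w) (6 * y + 1)))
  rw [e3, e3]
  exact hxy

theorem ind_update {n ℓ m : ℕ} {K : Type} [Field K] (r : Fin m → Fin ℓ → Lt n) (θ : Fin n → Kˣ)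
    (j : Fin m) (w : Fin ℓ → Lt n) (I : Finset (Fin n)) :
    Ind (Function.update r j w) θ j.1 I ↔ Ind r θ j.1 I := by
  unfold Ind
  have : (fun (l : {l : Fin m // l.1 < j.1}) (x : {x // x ∈ I}) =>
      evl θ (fox (Function.update r j w l.1) x.1)) =
      (fun (l : {l : Fin m // l.1 < j.1}) (x : {x // x ∈ I}) => evl θ (fox (r l.1) x.1)) := by
    funext l x
    have : l.1 ≠ j := by
      intro h
      have := l.2
      rw [h] at this
      exact lt_irrefl _ this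
    rw [Function.update_of_ne this]
  rw [this]

theorem badK_bound (h1 : TaskSTEP) (h2 : TaskKEYP) (h3 : TaskFX) (h4 : TaskRAD) (h5 : TaskCT)
    (h6 : TaskNE1) (h7 : TaskTR) (h9 : TaskFOXW) {n ℓ m S0 : ℕ} {C : Finset (Fin n)}
    {j : Fin m} {i i' : Fin n} (hmn : m + 2 ≤ n) (k : Fin n) :
    Nat.card {r : Fin m → RW n ℓ // BadK S0 C j i i' k (fun l => (r l).1)} * 2 ^ S0 ≤
      EE n ℓ ^ n * Nat.card (Fin m → RW n ℓ) := by
  classical
  by_cases hk : k ∈ (Finset.univ \ {i, i'} : Finset (Fin n))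
  swap
  · have he : IsEmpty {r : Fin m → RW n ℓ // BadK S0 C j i i' k (fun l => (r l).1)} :=
      ⟨fun r => hk r.2.2.2.2.1⟩
    rw [Nat.card_of_isEmpty]
    simp
  have hki : k ≠ i := by
    rintro rfl
    simp at hk
  have hi : i ∉ (Finset.univ \ {i, i'} : Finset (Fin n)) := by simp
  refine h2 n ℓ m j k i (BadK S0 C j i i' k) (2 ^ S0) (EE n ℓ ^ n) hki ?_
  intro r hcan
  set w : Fin m → Fin ℓ → Lt n := fun l => (r l).1 with hw
  have hcan' : ∀ t, ¬ At (w j) (6 * t + 1) (c1 k i) := hcan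
  change Nat.card {S : Finset ℕ // S ⊆ TW k i (w j) ∧
      BadK S0 C j i i' k (Function.update w j (put k i S (w j)))} * 2 ^ S0 ≤
      EE n ℓ ^ n * 2 ^ (TW k i (w j)).card
  by_cases hex : ∃ S : Finset ℕ, S ⊆ TW k i (w j) ∧
      BadK S0 C j i i' k (Function.update w j (put k i S (w j)))
  swap
  · have he : IsEmpty {S : Finset ℕ // S ⊆ TW k i (w j) ∧
        BadK S0 C j i i' k (Function.update w j (put k i S (w j)))} :=
      ⟨fun S => hex ⟨S.1, S.2⟩⟩
    rw [Nat.card_of_isEmpty]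
    simp
  obtain ⟨S1, hS1, a1, a2, a3, _, _⟩ := hex
  have hpos : ∀ S : Finset ℕ, S ⊆ TW k i (w j) →
      (fun l => pos (Function.update w j (put k i S (w j)) l) ℓ) = (fun l => pos (w l) ℓ) :=
    fun S hS => funext (fun l => pos_update h3 hki w j hcan' hS l)
  rw [hpos S1 hS1] at a1 a2
  have hspr : Spr S0 k i (w j) := by
    have := a3 k i hki
    rw [Function.update_self] at this
    exact spr_put h3 hki (w j) hcan' hS1 this
  -- the radical relations
  obtain ⟨q, u, q1, q2, _, hR⟩ := h4 n m ℓ (fun l => pos (w l) ℓ) C a1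
    (fun l x => (h9 n ℓ (w l)).2.2.2 x)
  obtain ⟨TT, hT1, hT2⟩ := h5 n C q u ⊥ q1
  have hCc : 1 ≤ C.card := by
    have := a1.1
    omega
  let P : ∀ (K : Type) [Field K], (Fin n → Kˣ) → Prop := fun K _ θ =>
    (∀ l, mon θ (Multiplicative.ofAdd (pos (w l) ℓ)) = 1) ∧ Gen0 C θ ∧
    Ind w θ j.1 (Finset.univ \ {i, i'}) ∧
    (∃ z : Fin n → K, (∀ x, x ∉ (Finset.univ \ {i, i'} : Finset (Fin n)) → z x = 0) ∧
      (∀ l : Fin m, l.1 < j.1 → ∑ x, z x * evl θ (fox (w l) x) = 0) ∧ z k ≠ 0)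
  have hstep := h1 n ℓ m S0 k i w j (Finset.univ \ {i, i'}) TT P hki hcan' hspr (by
    intro K _ θ hP
    obtain ⟨p1, p2, p3, z, z1, z2, z3⟩ := hP
    refine ⟨hT2 K θ (hR K θ p1) p2, (h7 n C K θ).2 hCc p2, p3, z, z1, z2, ?_⟩
    rw [z1 i hi, mul_zero, sub_zero]
    have hne : θ i ≠ 1 := h6 n m (fun l => pos (w l) ℓ) C i K θ a1 a2 p1 p2
    have hne' : ((θ i : Kˣ) : K) - 1 ≠ 0 := by
      intro h
      apply hne
      apply Units.ext
      rw [Units.val_one]
      exact sub_eq_zero.1 h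
    exact mul_ne_zero hne' z3)
  have hfin : Finite {S : Finset ℕ // S ⊆ TW k i (w j) ∧ ∃ (K : Type) (_ : Field K)
      (θ : Fin n → Kˣ), P K θ ∧
      ¬ Ind (Function.update w j (put k i S (w j))) θ (j.1 + 1) (Finset.univ \ {i, i'})} := by
    have : Finite {S : Finset ℕ // S ∈ (TW k i (w j)).powerset} := inferInstance
    refine Finite.of_injective (β := {S : Finset ℕ // S ∈ (TW k i (w j)).powerset})
      (fun S => ⟨S.1, Finset.mem_powerset.2 S.2.1⟩) ?_
    intro a b hab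
    apply Subtype.ext
    exact congrArg (fun x => x.1) hab
  have hle : Nat.card {S : Finset ℕ // S ⊆ TW k i (w j) ∧
      BadK S0 C j i i' k (Function.update w j (put k i S (w j)))} ≤
      Nat.card {S : Finset ℕ // S ⊆ TW k i (w j) ∧ ∃ (K : Type) (_ : Field K)
      (θ : Fin n → Kˣ), P K θ ∧
      ¬ Ind (Function.update w j (put k i S (w j))) θ (j.1 + 1) (Finset.univ \ {i, i'})} := by
    have himp : ∀ S : Finset ℕ, (S ⊆ TW k i (w j) ∧
        BadK S0 C j i i' k (Function.update w j (put k i S (w j)))) →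
        (S ⊆ TW k i (w j) ∧ ∃ (K : Type) (_ : Field K)
      (θ : Fin n → Kˣ), P K θ ∧
      ¬ Ind (Function.update w j (put k i S (w j))) θ (j.1 + 1) (Finset.univ \ {i, i'})) := by
      rintro S ⟨hS, -, -, -, -, K, hK, θ, p1, p2, p3, ⟨z, z1, z2, z3⟩, p4⟩
      refine ⟨hS, K, hK, θ, ⟨?_, p2, (ind_update w θ j _ _).1 p3, z, z1, ?_, z3⟩, p4⟩
      · intro l
        have := p1 l
        rw [pos_update h3 hki w j hcan' hS l] at this
        exact this
      · intro l hl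
        have := z2 l hl
        have hlj : l ≠ j := by
          intro h
          rw [h] at hl
          exact lt_irrefl _ hl
        rw [Function.update_of_ne hlj] at this
        exact this
    refine Nat.card_le_card_of_injective (fun S => ⟨S.1, himp S.1 S.2⟩) ?_
    intro a b hab
    apply Subtype.ext
    exact congrArg (fun x => x.1) hab
  calc _ ≤ _ := Nat.mul_le_mul_right _ hle
    _ ≤ _ := hstep
    _ ≤ EE n ℓ ^ n * 2 ^ (TW k i (w j)).card :=
      Nat.mul_le_mul_right _ (hT1.trans (Nat.pow_le_pow_left q2 n))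

theorem taskBG (h1 : TaskSTEP) (h2 : TaskKEYP) (h3 : TaskFX) (h4 : TaskRAD) (h5 : TaskCT)
    (h6 : TaskNE1) (h7 : TaskTR) (h8 : TaskPAIR) (h9 : TaskFOXW) : TaskBG := by
  classical
  intro n ℓ m S0 C j i i' hmn hii
  have hfr : Finite (Fin m → RW n ℓ) := inferInstance
  have hcard : Nat.card {r : Fin m → RW n ℓ // BadG S0 C j i i' (fun l => (r l).1)} ≤
      ∑ k : Fin n, Nat.card {r : Fin m → RW n ℓ // BadK S0 C j i i' k (fun l => (r l).1)} := by
    rw [← Nat.card_sigma]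
    have hch : ∀ r : {r : Fin m → RW n ℓ // BadG S0 C j i i' (fun l => (r l).1)},
        ∃ k, BadK S0 C j i i' k (fun l => (r.1 l).1) := fun r => badG_imp h8 hmn hii _ r.2
    choose f hf using hch
    refine Nat.card_le_card_of_injective
      (β := Σ k : Fin n, {r : Fin m → RW n ℓ // BadK S0 C j i i' k (fun l => (r l).1)})
      (fun r => ⟨f r, ⟨r.1, hf r⟩⟩) ?_
    intro a b hab
    apply Subtype.ext
    have := congrArg (fun x : (Σ k : Fin n, {r : Fin m → RW n ℓ //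
      BadK S0 C j i i' k (fun l => (r l).1)}) => x.2.1) hab
    exact this
  calc _ ≤ (∑ k : Fin n, Nat.card {r : Fin m → RW n ℓ //
          BadK S0 C j i i' k (fun l => (r l).1)}) * 2 ^ S0 := Nat.mul_le_mul_right _ hcard
    _ = ∑ k : Fin n, (Nat.card {r : Fin m → RW n ℓ //
          BadK S0 C j i i' k (fun l => (r l).1)} * 2 ^ S0) := by rw [Finset.sum_mul]
    _ ≤ ∑ k : Fin n, (EE n ℓ ^ n * Nat.card (Fin m → RW n ℓ)) :=
      Finset.sum_le_sum (fun k _ => badK_bound h1 h2 h3 h4 h5 h6 h7 h9 hmn k)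
    _ = n * EE n ℓ ^ n * Nat.card (Fin m → RW n ℓ) := by
      rw [Finset.sum_const, Finset.card_univ, Fintype.card_fin, smul_eq_mul]
      ring

end Pool.Agent.H577R3.RM
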